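import Pool.Agent.H176.DT.Stm2

/-!
# The relations of the lifts (job DT2-B)
-/

set_option autoImplicit false
set_option linter.unusedVariables false
set_option linter.unusedSectionVars false

universe u

namespace Pool.Agent.Y195.DT2

open Pool.Agent.H176.DT Pool.Agent.W418.LU2 IsLocalRing Polynomial

/-! ### representations -/

section rep

variable {E F : Type u} [Field E] [Field F] [Algebra E F] {V : ValuationSubring F}
  {q : ℕ} {P : Type} {t : Fin q → F} {z : P → F}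

lemma rep_zero {Q : V.ValueGroup → Prop} : Rep E V t z Q 0 :=
  ⟨0, Fin.elim0, fun i => i.elim0, fun i => i.elim0, by simp, fun i => i.elim0⟩

lemma rep_add {Q : V.ValueGroup → Prop} {w w' : F} (h : Rep E V t z Q w)
    (h' : Rep E V t z Q w') : Rep E V t z Q (w + w') := by
  obtain ⟨k, a, μ, p, hw, hQ⟩ := h
  obtain ⟨k', a', μ', p', hw', hQ'⟩ := h'
  refine ⟨k + k', Fin.append a a', Fin.append μ μ', Fin.append p p', ?_, ?_⟩
  · rw [Fin.sum_univ_add]
    simp only [Fin.append_left, Fin.append_right]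
    rw [hw, hw']
  · intro i
    refine Fin.addCases (fun i => ?_) (fun i => ?_) i
    · simp only [Fin.append_left]
      exact hQ i
    · simp only [Fin.append_right]
      exact hQ' i

lemma rep_term {Q : V.ValueGroup → Prop} {a : E} (μ : Fin q → ℤ) (p : P) (ha : a ≠ 0)
    (hQ : Q (V.valuation (algebraMap E F a * mo t μ))) :
    Rep E V t z Q (algebraMap E F a * mo t μ * z p) :=
  ⟨1, fun _ => a, fun _ => μ, fun _ => p, by simp, fun _ => ⟨ha, hQ⟩⟩

lemma rep_sum {ι : Type*} (s : Finset ι) {Q : V.ValueGroup → Prop} {w : ι → F}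
    (h : ∀ i ∈ s, Rep E V t z Q (w i)) : Rep E V t z Q (∑ i ∈ s, w i) :=
  Finset.sum_induction w (Rep E V t z Q) (fun _ _ => rep_add) rep_zero h

lemma rep_mono {Q Q' : V.ValueGroup → Prop} (hQ : ∀ x, Q x → Q' x) {w : F}
    (h : Rep E V t z Q w) : Rep E V t z Q' w := by
  obtain ⟨k, a, μ, p, hw, h1⟩ := h
  exact ⟨k, a, μ, p, hw, fun i => ⟨(h1 i).1, hQ _ (h1 i).2⟩⟩

lemma rep_mul {Q Q' : V.ValueGroup → Prop} (ht : ∀ i, t i ≠ 0) {c : E} (hc : c ≠ 0)
    (μ₀ : Fin q → ℤ) (hQ : ∀ x, Q x → Q' (V.valuation (algebraMap E F c * mo t μ₀) * x)) {w : F}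
    (h : Rep E V t z Q w) : Rep E V t z Q' (algebraMap E F c * mo t μ₀ * w) := by
  obtain ⟨k, a, μ, p, hw, h1⟩ := h
  have e : ∀ i, algebraMap E F (c * a i) * mo t (μ₀ + μ i) =
      (algebraMap E F c * mo t μ₀) * (algebraMap E F (a i) * mo t (μ i)) := by
    intro i
    rw [map_mul, mo_add ht]
    ring
  refine ⟨k, fun i => c * a i, fun i => μ₀ + μ i, p, ?_, fun i => ⟨mul_ne_zero hc (h1 i).1, ?_⟩⟩
  · rw [hw, Finset.mul_sum]
    refine Finset.sum_congr rfl fun i _ => ?_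
    rw [e]
    ring
  · rw [e, map_mul]
    exact hQ _ (h1 i).2

lemma rep_neg {ρ : V.ValueGroup} (ht : ∀ i, t i ≠ 0) {w : F}
    (h : Rep E V t z (· < ρ) w) : Rep E V t z (· < ρ) (-w) := by
  have h1 := rep_mul (Q' := (· < ρ)) ht (c := (-1 : E)) (by simp) 0 (fun x hx => by
    rw [mo_zero, mul_one, map_neg, map_one, Valuation.map_neg, map_one, one_mul]
    exact hx) h
  rw [mo_zero, mul_one, map_neg, map_one, neg_one_mul] at h1
  exact h1

lemma rep_div {ρ : V.ValueGroup} (ht : ∀ i, t i ≠ 0) {a : E} (ha : a ≠ 0) (μ : Fin q → ℤ)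
    (hρ : V.valuation (algebraMap E F a * mo t μ) = ρ) {w : F} (h : Rep E V t z (· < ρ) w) :
    Rep E V t z (· < 1) ((algebraMap E F a * mo t μ)⁻¹ * w) := by
  have hne : algebraMap E F a * mo t μ ≠ 0 :=
    mul_ne_zero ((_root_.map_ne_zero _).2 ha) (mo_ne_zero ht μ)
  have e : (algebraMap E F a * mo t μ)⁻¹ = algebraMap E F a⁻¹ * mo t (-μ) := by
    rw [mul_inv, mo_neg, map_inv₀]
  have hρ0 : ρ ≠ 0 := by
    rw [← hρ]
    exact (Valuation.ne_zero_iff _).2 hne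
  rw [e]
  refine rep_mul ht (inv_ne_zero ha) (-μ) (fun x hx => ?_) h
  rw [← e, map_inv₀, hρ]
  rw [← inv_mul_cancel₀ hρ0]
  exact mul_lt_mul_of_pos_left hx (zero_lt_iff.2 (inv_ne_zero hρ0))

lemma rep_div_le {ρ : V.ValueGroup} (ht : ∀ i, t i ≠ 0) {a : E} (ha : a ≠ 0) (μ : Fin q → ℤ)
    (hρ : V.valuation (algebraMap E F a * mo t μ) = ρ) {w : F} (h : Rep E V t z (· ≤ ρ) w) :
    Rep E V t z (· ≤ 1) ((algebraMap E F a * mo t μ)⁻¹ * w) := by
  have hne : algebraMap E F a * mo t μ ≠ 0 :=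
    mul_ne_zero ((_root_.map_ne_zero _).2 ha) (mo_ne_zero ht μ)
  have e : (algebraMap E F a * mo t μ)⁻¹ = algebraMap E F a⁻¹ * mo t (-μ) := by
    rw [mul_inv, mo_neg, map_inv₀]
  have hρ0 : ρ ≠ 0 := by
    rw [← hρ]
    exact (Valuation.ne_zero_iff _).2 hne
  rw [e]
  refine rep_mul ht (inv_ne_zero ha) (-μ) (fun x hx => ?_) h
  rw [← e, map_inv₀, hρ]
  rw [← inv_mul_cancel₀ hρ0]
  exact mul_le_mul_right hx _

end rep

/-! ### the data -/

section main

variable {E F : Type u} [Field E] [Field F] [Algebra E F] {V : ValuationSubring F} {θ : F}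
  {ϕ : E[X]} {n : ℕ} {β : Fin n → E[X]} {M : Type u} [Field M] [Algebra E M]
  {W : ValuationSubring M} {π : E[X] →ₐ[E] M} {q r : ℕ} {t : Fin q → M} {ee : Fin q → ℕ}
  {b : Fin r → M} {ff : Fin r → ℕ} {tt : Fin q → E[X]} {bb : Fin r → E[X]}
  {zz : ((i : Fin q) → Fin (ee i)) × ((j : Fin r) → Fin (ff j)) → E[X]}

lemma uniq (hR : Rsd V θ ϕ W π) {f g : E[X]} (hf : f.degree < ϕ.degree)
    (hg : g.degree < ϕ.degree) (h : π f = π g) : f = g := by
  have h1 : π (f - g) = 0 := by rw [map_sub, h, sub_self]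
  exact sub_eq_zero.1 (eq_zero_of_dvd_of_degree_lt ((hR.ker _).1 h1)
    (lt_of_le_of_lt (degree_sub_le f g) (max_lt hf hg)))

lemma one_deg (hK : KP V θ ϕ β) : (1 : E[X]).degree < ϕ.degree := by
  rw [degree_one]
  exact natDegree_pos_iff_degree_pos.1 hK.deg

lemma ne0 (hθ : Transcendental E θ) {f : E[X]} (hf : f ≠ 0) : aeval θ f ≠ 0 := fun h =>
  hf ((transcendental_iff.1 hθ) f h)

lemma val_lt (hK : KP V θ ϕ β) (hR : Rsd V θ ϕ W π) {f : E[X]} (hf : f.degree < ϕ.degree)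
    (h : W.valuation (π f) < 1) : V.valuation (aeval θ f) < 1 := by
  by_contra hcon
  rw [not_lt] at hcon
  have h1 := (hR.val 1 f (one_deg hK) hf).2 (by rw [map_one, map_one]; exact hcon)
  rw [map_one, map_one] at h1
  exact absurd h (not_lt.2 h1)

lemma val_one (hK : KP V θ ϕ β) (hR : Rsd V θ ϕ W π) {f : E[X]} (hf : f.degree < ϕ.degree) :
    W.valuation (π f) = 1 ↔ V.valuation (aeval θ f) = 1 := by
  have h1 := hR.val 1 f (one_deg hK) hf
  have h2 := hR.val f 1 hf (one_deg hK)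
  simp only [map_one] at h1 h2
  constructor
  · intro h
    exact le_antisymm (h2.1 h.le) (h1.1 h.ge)
  · intro h
    exact le_antisymm (h2.2 h.le) (h1.2 h.ge)

/-- the exponents of the monomials in the generators and the key polynomial -/
lemma mo_tf (μ : Fin q → ℤ) (k : ℤ) : mo (tf θ ϕ tt) (Fin.snoc (α := fun _ => ℤ) μ k) =
    mo (fun i => aeval θ (tt i)) μ * aeval θ ϕ ^ k := by
  unfold mo tf
  rw [Fin.prod_univ_castSucc]
  simp only [Fin.snoc_castSucc, Fin.snoc_last]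

lemma tf_ne (hθ : Transcendental E θ) (hK : KP V θ ϕ β) (htt : ∀ i, aeval θ (tt i) ≠ 0)
    (i : Fin (q + 1)) : tf θ ϕ tt i ≠ 0 := by
  unfold tf
  refine Fin.lastCases ?_ (fun j => ?_) i
  · rw [Fin.snoc_last]
    exact ne0 hθ hK.monic.ne_zero
  · rw [Fin.snoc_castSucc]
    exact htt j

lemma zz_eq (htt : ∀ i, aeval θ (tt i) ≠ 0)
    (p : ((i : Fin q) → Fin (ee i)) × ((j : Fin r) → Fin (ff j))) :
    aeval θ (zz p) = mo (fun i => aeval θ (tt i)) (fun i => ((p.1 i : ℕ) : ℤ)) *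
      zf θ tt zz p := by
  have h : mo (fun i => aeval θ (tt i)) (fun i => ((p.1 i : ℕ) : ℤ)) =
      ∏ i, aeval θ (tt i) ^ (p.1 i : ℕ) := by
    unfold mo
    exact Finset.prod_congr rfl fun i _ => zpow_natCast _ _
  have h0 : ∏ i, aeval θ (tt i) ^ (p.1 i : ℕ) ≠ 0 :=
    Finset.prod_ne_zero_iff.2 fun i _ => pow_ne_zero _ (htt i)
  rw [h, zf]
  field_simp

lemma degC (c : E) (f : E[X]) : (C c * f).degree ≤ f.degree := by
  by_cases h : c = 0
  · rw [h, C_0, zero_mul, degree_zero]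
    exact bot_le
  · rw [degree_C_mul h]

/-- The expansion of a polynomial of small degree. -/
lemma digits (hK : KP V θ ϕ β) (hL : Lft V θ ϕ W π t ee b ff tt bb zz) {d : E[X]}
    (hd : d.degree < ϕ.degree) :
    ∃ c : ((i : Fin q) → Fin (ee i)) × ((j : Fin r) → Fin (ff j)) → E,
      d = ∑ p, C (c p) * zz p ∧
      ∀ p, V.valuation (aeval θ (C (c p) * zz p)) ≤ V.valuation (aeval θ d) := by
  obtain ⟨c, hc⟩ := hL.str.span (π d)
  have hdeg : ∀ p, (C (c p) * zz p).degree < ϕ.degree := fun p =>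
    lt_of_le_of_lt (degC _ _) (hL.zd p)
  have hπ : ∀ p, π (C (c p) * zz p) = algebraMap E M (c p) *
      ((∏ i, t i ^ (p.1 i : ℕ)) * ∏ j, b j ^ (p.2 j : ℕ)) := by
    intro p
    rw [map_mul, hL.zπ]
    congr 1
    exact π.commutes (c p)
  have hsum : (∑ p, C (c p) * zz p).degree < ϕ.degree := by
    refine lt_of_le_of_lt (degree_sum_le _ _) ?_
    rw [Finset.sup_lt_iff]
    · exact fun p _ => hdeg p
    · rw [bot_lt_iff_ne_bot, Ne, degree_eq_bot]
      exact hK.monic.ne_zero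
  refine ⟨c, uniq hL.rsd hd hsum ?_, fun p => ?_⟩
  · rw [map_sum, hc]
    exact Finset.sum_congr rfl fun p _ => (hπ p).symm
  · rw [← hL.rsd.val _ _ (hdeg p) hd, hπ, hc]
    exact hL.str.orth c p

/-- The terms of an expansion. -/
lemma term_rep (hθ : Transcendental E θ) (hK : KP V θ ϕ β)
    (hL : Lft V θ ϕ W π t ee b ff tt bb zz) (htt : ∀ i, aeval θ (tt i) ≠ 0)
    (hz : ∀ p, V.valuation (zf θ tt zz p) = 1) {d : E[X]} (hd : d.degree < ϕ.degree) (k : ℕ) :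
    Rep E V (tf θ ϕ tt) (zf θ tt zz) (· ≤ V.valuation (aeval θ (d * ϕ ^ k)))
      (aeval θ (d * ϕ ^ k)) := by
  obtain ⟨c, hc, hv⟩ := digits hK hL hd
  have e : ∀ p, aeval θ (C (c p) * zz p) * aeval θ ϕ ^ k =
      algebraMap E F (c p) * mo (tf θ ϕ tt) (Fin.snoc (α := fun _ => ℤ)
        (fun i => ((p.1 i : ℕ) : ℤ)) (k : ℤ)) * zf θ tt zz p := by
    intro p
    rw [map_mul, aeval_C, zz_eq htt, mo_tf, zpow_natCast]
    ring
  have e2 : aeval θ (d * ϕ ^ k) = ∑ p, aeval θ (C (c p) * zz p) * aeval θ ϕ ^ k := by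
    rw [← Finset.sum_mul, ← map_sum, ← hc, map_mul, map_pow]
  rw [e2]
  refine rep_sum _ fun p _ => ?_
  by_cases h0 : c p = 0
  · rw [h0, C_0, zero_mul, map_zero, zero_mul]
    exact rep_zero
  · rw [e p]
    refine rep_term _ _ h0 ?_
    have h1 : V.valuation (algebraMap E F (c p) * mo (tf θ ϕ tt) (Fin.snoc (α := fun _ => ℤ)
        (fun i => ((p.1 i : ℕ) : ℤ)) (k : ℤ))) =
        V.valuation (aeval θ (C (c p) * zz p)) * V.valuation (aeval θ ϕ ^ k) := by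
      rw [← map_mul, e p, map_mul _ (_ * _), hz, mul_one]
    have h3 : V.valuation (aeval θ (d * ϕ ^ k)) =
        V.valuation (aeval θ d) * V.valuation (aeval θ ϕ ^ k) := by
      rw [map_mul (aeval θ) d, map_pow (aeval θ), map_mul]
    rw [h1, ← e2, h3]
    exact mul_le_mul_left (hv p) _

lemma exn_rep (hθ : Transcendental E θ) (hK : KP V θ ϕ β)
    (hL : Lft V θ ϕ W π t ee b ff tt bb zz) (htt : ∀ i, aeval θ (tt i) ≠ 0)
    (hz : ∀ p, V.valuation (zf θ tt zz p) = 1) {Q : V.ValueGroup → Prop} {N : ℕ}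
    {d : ℕ → E[X]} {f : E[X]} (hE : Exn ϕ N d f)
    (hQ : ∀ k < N, ∀ x, x ≤ V.valuation (aeval θ (d k * ϕ ^ k)) → Q x) :
    Rep E V (tf θ ϕ tt) (zf θ tt zz) Q (aeval θ f) := by
  rw [hE.sum, map_sum]
  refine rep_sum _ fun k hk => ?_
  exact rep_mono (hQ k (Finset.mem_range.1 hk)) (term_rep hθ hK hL htt hz (hE.deg k) k)

/-! ### digits -/

/-- The calculus of digits. -/
structure DC (V : ValuationSubring F) (θ : F) (ϕ : E[X]) : Prop where
  small : ∀ (ρ : V.ValueGroup) (f : E[X]), f.degree < ϕ.degree → V.valuation (aeval θ f) ≤ ρ →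
      ρ ≠ 0 → Dig V θ ϕ ρ f
  add : ∀ (ρ : V.ValueGroup) (f g : E[X]), Dig V θ ϕ ρ f → Dig V θ ϕ ρ g → Dig V θ ϕ ρ (f + g)
  neg : ∀ (ρ : V.ValueGroup) (f : E[X]), Dig V θ ϕ ρ f → Dig V θ ϕ ρ (-f)
  mul : ∀ (ρ σ : V.ValueGroup) (f g : E[X]), ρ ≠ 0 → σ ≠ 0 → Dig V θ ϕ ρ f → Dig V θ ϕ σ g →
      Dig V θ ϕ (ρ * σ) (f * g)
  dvd : ∀ (ρ : V.ValueGroup) (f : E[X]), Dig V θ ϕ ρ f → ϕ ∣ f →
      ∃ (N : ℕ) (d : ℕ → E[X]), Exn ϕ (N + 1) d f ∧ d 0 = 0 ∧
        ∀ k, 1 ≤ k → k ≤ N → V.valuation (aeval θ (d k * ϕ ^ k)) < ρ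

lemma dig_one (hK : KP V θ ϕ β) (hD : DC V θ ϕ) : Dig V θ ϕ 1 1 :=
  hD.small 1 1 (one_deg hK) (by rw [map_one, map_one]) one_ne_zero

lemma dig_pow (hK : KP V θ ϕ β) (hD : DC V θ ϕ) {ρ : V.ValueGroup} (hρ : ρ ≠ 0) {f : E[X]}
    (h : Dig V θ ϕ ρ f) (k : ℕ) : Dig V θ ϕ (ρ ^ k) (f ^ k) := by
  induction k with
  | zero => rw [pow_zero, pow_zero]; exact dig_one hK hD
  | succ k ih => rw [pow_succ, pow_succ]; exact hD.mul _ _ _ _ (pow_ne_zero _ hρ) hρ ih h

lemma dig_prod (hK : KP V θ ϕ β) (hD : DC V θ ϕ) {ι : Type*} (s : Finset ι) (f : ι → E[X])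
    (ρ : ι → V.ValueGroup) (hρ : ∀ i, ρ i ≠ 0) (h : ∀ i, Dig V θ ϕ (ρ i) (f i)) :
    Dig V θ ϕ (∏ i ∈ s, ρ i) (∏ i ∈ s, f i) := by
  classical
  induction s using Finset.induction_on with
  | empty => rw [Finset.prod_empty, Finset.prod_empty]; exact dig_one hK hD
  | insert a s ha ih =>
    rw [Finset.prod_insert ha, Finset.prod_insert ha]
    exact hD.mul _ _ _ _ (hρ a) (Finset.prod_ne_zero_iff.2 fun i _ => hρ i) (h a) ih

lemma dig_ring (hK : KP V θ ϕ β) (hD : DC V θ ϕ) :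
    ∃ S : Subring E[X], ∀ f, f ∈ S ↔ Dig V θ ϕ 1 f :=
  ⟨{ carrier := {f | Dig V θ ϕ 1 f}
     mul_mem' := fun {f g} hf hg => by
        have := hD.mul 1 1 f g one_ne_zero one_ne_zero hf hg
        rw [one_mul] at this
        exact this
     one_mem' := dig_one hK hD
     add_mem' := fun {f g} hf hg => hD.add 1 f g hf hg
     zero_mem' := hD.small 1 0 (by
        rw [degree_zero, bot_lt_iff_ne_bot, Ne, degree_eq_bot]; exact hK.monic.ne_zero)
        (by rw [map_zero, map_zero]; exact zero_le') one_ne_zero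
     neg_mem' := fun {f} hf => hD.neg 1 f hf }, fun f => Iff.rfl⟩

lemma pi_exn (hR : Rsd V θ ϕ W π) {N : ℕ} {d : ℕ → E[X]} {f : E[X]} (h : Exn ϕ (N + 1) d f) :
    π f = π (d 0) := by
  have h0 : π ϕ = 0 := (hR.ker ϕ).2 dvd_rfl
  rw [h.sum, map_sum, Finset.sum_range_succ', pow_zero, mul_one]
  rw [Finset.sum_eq_zero, zero_add]
  intro k _
  rw [map_mul, map_pow, h0, zero_pow (Nat.succ_ne_zero k), mul_zero]

/-- The polynomials with digits of value at most one and residue zero. -/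
lemma small_rep (hθ : Transcendental E θ) (hK : KP V θ ϕ β)
    (hL : Lft V θ ϕ W π t ee b ff tt bb zz) (htt : ∀ i, aeval θ (tt i) ≠ 0)
    (hz : ∀ p, V.valuation (zf θ tt zz p) = 1) {f : E[X]} (hf : Dig V θ ϕ 1 f)
    (hv : W.valuation (π f) < 1) : Rep E V (tf θ ϕ tt) (zf θ tt zz) (· < 1) (aeval θ f) := by
  obtain ⟨N, d, hE, h0, hk⟩ := hf
  rw [pi_exn hL.rsd hE] at hv
  have h1 := val_lt hK hL.rsd (hE.deg 0) hv
  refine exn_rep hθ hK hL htt hz hE fun k hk' x hx => lt_of_le_of_lt hx ?_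
  rcases Nat.eq_zero_or_pos k with rfl | hkpos
  · rw [pow_zero, mul_one]; exact h1
  · exact hk k hkpos (by omega)

/-- (1) -/
lemma part_res (hθ : Transcendental E θ) (hK : KP V θ ϕ β) (hD : DC V θ ϕ)
    (hL : Lft V θ ϕ W π t ee b ff tt bb zz) (htt : ∀ i, aeval θ (tt i) ≠ 0)
    (hz : ∀ p, V.valuation (zf θ tt zz p) = 1) (hb : ∀ j, V.valuation (aeval θ (bb j)) = 1)
    (j : Fin r) (h : Fin (ff j) → MvPolynomial (Fin r) E)
    (hc : ∀ l m, algebraMap E F ((h l).coeff m) ∈ V)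
    (hv : W.valuation (b j ^ ff j + ∑ l, MvPolynomial.aeval b (h l) * b j ^ (l : ℕ)) < 1) :
    Rep E V (tf θ ϕ tt) (zf θ tt zz) (· < 1) (aeval θ (bb j) ^ ff j +
      ∑ l, MvPolynomial.aeval (fun i => aeval θ (bb i)) (h l) * aeval θ (bb j) ^ (l : ℕ)) := by
  obtain ⟨S, hS⟩ := dig_ring hK hD
  have hbb : ∀ i, bb i ∈ S := fun i => (hS _).2 (hD.small 1 _ (hL.bd i) (hb i).le one_ne_zero)
  have hC : ∀ a : E, algebraMap E F a ∈ V → C a ∈ S := by
    intro a ha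
    refine (hS _).2 (hD.small 1 _ ?_ ?_ one_ne_zero)
    · exact lt_of_le_of_lt degree_C_le (natDegree_pos_iff_degree_pos.1 hK.deg)
    · rw [aeval_C]
      exact (V.valuation_le_one_iff _).2 ha
  have hmv : ∀ l, MvPolynomial.aeval bb (h l) ∈ S := by
    intro l
    rw [MvPolynomial.aeval_def, MvPolynomial.eval₂_eq']
    refine S.sum_mem fun m _ => S.mul_mem (hC _ (hc l m)) (S.prod_mem fun i _ =>
      S.pow_mem (hbb i) _)
  have hf : bb j ^ ff j + ∑ l, MvPolynomial.aeval bb (h l) * bb j ^ (l : ℕ) ∈ S :=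
    S.add_mem (S.pow_mem (hbb j) _) (S.sum_mem fun l _ =>
      S.mul_mem (hmv l) (S.pow_mem (hbb j) _))
  have h1 := small_rep hθ hK hL htt hz ((hS _).1 hf) (by
    rw [map_add, map_pow, map_sum, hL.bπ]
    have e : ∀ l, π (MvPolynomial.aeval bb (h l) * bb j ^ (l : ℕ)) =
        MvPolynomial.aeval b (h l) * b j ^ (l : ℕ) := by
      intro l
      rw [map_mul, map_pow, hL.bπ, MvPolynomial.comp_aeval_apply]
      simp only [hL.bπ]
    rw [Finset.sum_congr rfl fun l _ => e l]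
    exact hv)
  have e : ∀ l, aeval θ (MvPolynomial.aeval bb (h l) * bb j ^ (l : ℕ)) =
      MvPolynomial.aeval (fun i => aeval θ (bb i)) (h l) * aeval θ (bb j) ^ (l : ℕ) := by
    intro l
    rw [map_mul, map_pow, MvPolynomial.comp_aeval_apply]
  rw [map_add, map_pow, map_sum, Finset.sum_congr rfl fun l _ => e l] at h1
  exact h1

/-- (3) -/
lemma part_zw (hθ : Transcendental E θ) (hK : KP V θ ϕ β) (hD : DC V θ ϕ)
    (hL : Lft V θ ϕ W π t ee b ff tt bb zz) (htt : ∀ i, aeval θ (tt i) ≠ 0)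
    (hz : ∀ p, V.valuation (zf θ tt zz p) = 1) (hb : ∀ j, V.valuation (aeval θ (bb j)) = 1)
    (p : ((i : Fin q) → Fin (ee i)) × ((j : Fin r) → Fin (ff j))) :
    Rep E V (tf θ ϕ tt) (zf θ tt zz) (· < 1)
      (zf θ tt zz p - ∏ j, aeval θ (bb j) ^ (p.2 j : ℕ)) := by
  set ρ : V.ValueGroup := ∏ i, V.valuation (aeval θ (tt i)) ^ (p.1 i : ℕ) with hρ
  have hρ1 : ∀ i, V.valuation (aeval θ (tt i)) ≠ 0 := fun i => (Valuation.ne_zero_iff _).2 (htt i)
  have hρ0 : ρ ≠ 0 := Finset.prod_ne_zero_iff.2 fun i _ => pow_ne_zero _ (hρ1 i)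
  have hd1 : Dig V θ ϕ ρ (∏ i, tt i ^ (p.1 i : ℕ)) :=
    dig_prod hK hD _ _ _ (fun i => pow_ne_zero _ (hρ1 i)) fun i =>
      dig_pow hK hD (hρ1 i) (hD.small _ _ (hL.td i) le_rfl (hρ1 i)) _
  have hd2 : Dig V θ ϕ 1 (∏ j, bb j ^ (p.2 j : ℕ)) := by
    have := dig_prod hK hD Finset.univ (fun j => bb j ^ (p.2 j : ℕ))
      (fun _ => (1 : V.ValueGroup) ^ 0) (fun i => by simp) fun j => by
        have := dig_pow hK hD one_ne_zero
          (hD.small 1 _ (hL.bd j) (hb j).le one_ne_zero) (p.2 j : ℕ)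
        rw [one_pow] at this
        rw [pow_zero]
        exact this
    simpa using this
  have hd3 := hD.mul _ _ _ _ hρ0 one_ne_zero hd1 hd2
  rw [mul_one] at hd3
  obtain ⟨N, d, hE, h0, hk⟩ := hd3
  have hπ := pi_exn hL.rsd hE
  have hd0 : d 0 = zz p := by
    refine uniq hL.rsd (hE.deg 0) (hL.zd p) ?_
    rw [← hπ, hL.zπ, map_mul, map_prod, map_prod]
    congr 1
    · exact Finset.prod_congr rfl fun i _ => by rw [map_pow, hL.tπ]
    · exact Finset.prod_congr rfl fun i _ => by rw [map_pow, hL.bπ]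
  -- the other terms
  set R : F := ∑ k ∈ Finset.range N, aeval θ (d (k + 1) * ϕ ^ (k + 1)) with hR
  have hrep : Rep E V (tf θ ϕ tt) (zf θ tt zz) (· < ρ) R :=
    rep_sum _ fun k hk' => rep_mono (fun x hx => lt_of_le_of_lt hx
      (hk (k + 1) (by omega) (by have := Finset.mem_range.1 hk'; omega)))
      (term_rep hθ hK hL htt hz (hE.deg (k + 1)) (k + 1))
  have hsum : aeval θ ((∏ i, tt i ^ (p.1 i : ℕ)) * ∏ j, bb j ^ (p.2 j : ℕ)) =
      R + aeval θ (zz p) := by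
    rw [hE.sum, map_sum, Finset.sum_range_succ', pow_zero, mul_one, hd0]
  have hm : mo (tf θ ϕ tt) (Fin.snoc (α := fun _ => ℤ) (fun i => ((p.1 i : ℕ) : ℤ)) (0 : ℤ)) =
      mo (fun i => aeval θ (tt i)) (fun i => ((p.1 i : ℕ) : ℤ)) := by
    rw [mo_tf, zpow_zero, mul_one]
  have hm2 : mo (fun i => aeval θ (tt i)) (fun i => ((p.1 i : ℕ) : ℤ)) =
      ∏ i, aeval θ (tt i) ^ (p.1 i : ℕ) := by
    unfold mo
    exact Finset.prod_congr rfl fun i _ => zpow_natCast _ _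
  have hmv : V.valuation (algebraMap E F 1 * mo (tf θ ϕ tt)
      (Fin.snoc (α := fun _ => ℤ) (fun i => ((p.1 i : ℕ) : ℤ)) (0 : ℤ))) = ρ := by
    rw [map_one, one_mul, hm, hm2, map_prod]
    exact Finset.prod_congr rfl fun i _ => map_pow _ _ _
  have h1 := rep_neg (tf_ne hθ hK htt) (rep_div (tf_ne hθ hK htt) one_ne_zero _ hmv hrep)
  rw [map_one, one_mul, hm] at h1
  convert h1 using 1
  have hne : mo (fun i => aeval θ (tt i)) (fun i => ((p.1 i : ℕ) : ℤ)) ≠ 0 :=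
    mo_ne_zero htt _
  rw [map_mul, map_prod, map_prod, zz_eq htt] at hsum
  simp only [map_pow] at hsum
  rw [← hm2] at hsum
  have h2 : R = mo (fun i => aeval θ (tt i)) (fun i => ((p.1 i : ℕ) : ℤ)) *
      (∏ j, aeval θ (bb j) ^ (p.2 j : ℕ) - zf θ tt zz p) := by
    rw [mul_sub, hsum]
    ring
  rw [h2, inv_mul_cancel_left₀ hne]
  ring

/-- (4) -/
lemma part_mono (hθ : Transcendental E θ) (hK : KP V θ ϕ β)
    (hL : Lft V θ ϕ W π t ee b ff tt bb zz) (htt : ∀ i, aeval θ (tt i) ≠ 0)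
    (hz : ∀ p, V.valuation (zf θ tt zz p) = 1) {f : E[X]} (hf : f ≠ 0) (hd : Domi V θ ϕ f) :
    Mono E V (tf θ ϕ tt) (zf θ tt zz) (aeval θ f) := by
  obtain ⟨N, d, hE, hk⟩ := hd
  have hrep : Rep E V (tf θ ϕ tt) (zf θ tt zz) (· ≤ V.valuation (aeval θ f)) (aeval θ f) :=
    exn_rep hθ hK hL htt hz hE fun k hk' x hx => hx.trans (hk k hk')
  have hf0 : V.valuation (aeval θ f) ≠ 0 := (Valuation.ne_zero_iff _).2 (ne0 hθ hf)
  obtain ⟨k, a, μ, p, hw, hQ⟩ := hrep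
  have hex : ∃ i, V.valuation (algebraMap E F (a i) * mo (tf θ ϕ tt) (μ i)) =
      V.valuation (aeval θ f) := by
    by_contra hcon
    push Not at hcon
    have h1 : V.valuation (∑ i, algebraMap E F (a i) * mo (tf θ ϕ tt) (μ i) *
        zf θ tt zz (p i)) < V.valuation (aeval θ f) := by
      refine Valuation.map_sum_lt _ hf0 fun i _ => ?_
      rw [map_mul _ (_ * _), hz, mul_one]
      exact lt_of_le_of_ne (hQ i).2 (hcon i)
    rw [← hw] at h1
    exact lt_irrefl _ h1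
  obtain ⟨i, hi⟩ := hex
  have hne : algebraMap E F (a i) * mo (tf θ ϕ tt) (μ i) ≠ 0 :=
    mul_ne_zero ((_root_.map_ne_zero _).2 (hQ i).1) (mo_ne_zero (tf_ne hθ hK htt) _)
  refine ⟨a i, μ i, (algebraMap E F (a i) * mo (tf θ ϕ tt) (μ i))⁻¹ * aeval θ f, (hQ i).1,
    ?_, ?_, ?_⟩
  · rw [mul_inv_cancel_left₀ hne]
  · rw [map_mul, map_inv₀, hi, inv_mul_cancel₀ hf0]
  · exact rep_div_le (tf_ne hθ hK htt) (hQ i).1 (μ i) hi ⟨k, a, μ, p, hw, hQ⟩

lemma red (hS : Str (E := E) W t ee b ff) {c : E} (hc : c ≠ 0) (μ : (i : Fin q) → Fin (ee i))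
    (h : W.valuation (algebraMap E M c * ∏ i, t i ^ (μ i : ℕ)) = 1) : ∀ i, (μ i : ℕ) = 0 := by
  classical
  by_contra hcon
  push Not at hcon
  obtain ⟨i0, hi0⟩ := hcon
  obtain ⟨i, hi, hmax⟩ := Finset.exists_max_image
    (Finset.univ.filter fun i : Fin q => (μ i : ℕ) ≠ 0) (fun i => i)
    ⟨i0, Finset.mem_filter.2 ⟨Finset.mem_univ _, hi0⟩⟩
  have hi' : (μ i : ℕ) ≠ 0 := (Finset.mem_filter.1 hi).2
  have hgt : ∀ j, i < j → (μ j : ℕ) = 0 := by
    intro j hj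
    by_contra h0
    exact absurd (hmax j (Finset.mem_filter.2 ⟨Finset.mem_univ _, h0⟩)) (not_le.2 hj)
  set m : Fin q → ℤ := fun j => if j < i then -((μ j : ℕ) : ℤ) else 0 with hm
  have hsplit : ∏ j, t j ^ (μ j : ℕ) = t i ^ (μ i : ℕ) * mo t (-m) := by
    have e : ∀ j, t j ^ (μ j : ℕ) = (if j = i then t i ^ (μ i : ℕ) else 1) * t j ^ ((-m) j) := by
      intro j
      simp only [hm, Pi.neg_apply]
      rcases lt_trichotomy j i with h1 | h1 | h1
      · rw [if_neg h1.ne, if_pos h1, neg_neg, zpow_natCast, one_mul]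
      · rw [if_pos h1, if_neg (by rw [h1]; exact lt_irrefl _), neg_zero, zpow_zero, mul_one, h1]
      · rw [if_neg h1.ne', if_neg (not_lt.2 h1.le), neg_zero, zpow_zero, mul_one, hgt j h1,
          pow_zero]
    rw [Finset.prod_congr rfl fun j _ => e j, Finset.prod_mul_distrib, Finset.prod_ite_eq',
      if_pos (Finset.mem_univ _)]
    rfl
  have hmo : mo t m ≠ 0 := mo_ne_zero hS.t0 m
  have hcM : algebraMap E M c ≠ 0 := (_root_.map_ne_zero _).2 hc
  have h1 := hS.min i ((μ i : ℕ) : ℤ) c⁻¹ m (inv_ne_zero hc)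
    (fun j hj => by simp only [hm]; rw [if_neg (not_lt.2 hj)]) (by
      rw [hsplit, mo_neg] at h
      have e : t i ^ (((μ i : ℕ) : ℤ)) = (algebraMap E M c⁻¹ * mo t m) *
          (algebraMap E M c * (t i ^ (μ i : ℕ) * (mo t m)⁻¹)) := by
        rw [zpow_natCast, map_inv₀]
        field_simp
      rw [e, map_mul _ (_ * _), h, mul_one])
  have h2 : ee i ∣ (μ i : ℕ) := by exact_mod_cast h1
  exact hi' (Nat.eq_zero_of_dvd_of_lt h2 (μ i).2)

lemma mo_split {K : Type u} [Field K] {q : ℕ} {x : Fin q → K} (hx : ∀ i, x i ≠ 0)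
    (m : Fin q → ℤ) :
    mo x m * ∏ i, x i ^ (-m i).toNat = ∏ i, x i ^ (m i).toNat := by
  unfold mo
  rw [← Finset.prod_mul_distrib]
  refine Finset.prod_congr rfl fun i _ => ?_
  rw [← zpow_natCast, ← zpow_natCast, ← zpow_add₀ (hx i)]
  congr 1
  omega

lemma pol_eval {K : Type u} [Field K] [Algebra E K] {ι : Type} [Fintype ι] {r : ℕ} (x : Fin r → K)
    (s : ι → E) (ν : ι → Fin r → ℕ) :
    MvPolynomial.aeval x (∑ p, MvPolynomial.monomial (Finsupp.equivFunOnFinite.symm (ν p)) (s p)) =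
      ∑ p, algebraMap E K (s p) * ∏ j, x j ^ (ν p j) := by
  rw [map_sum]
  refine Finset.sum_congr rfl fun p _ => ?_
  rw [MvPolynomial.aeval_monomial, Finsupp.prod_fintype _ _ fun i => pow_zero _]
  rfl

lemma pol_coeff {ι : Type} [Fintype ι] {r : ℕ}
    (s : ι → E) (ν : ι → Fin r → ℕ) (hs : ∀ p, algebraMap E F (s p) ∈ V) (m : Fin r →₀ ℕ) :
    algebraMap E F ((∑ p, MvPolynomial.monomial (Finsupp.equivFunOnFinite.symm (ν p))
      (s p)).coeff m) ∈ V := by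
  classical
  rw [MvPolynomial.coeff_sum, map_sum]
  refine sum_mem fun p _ => ?_
  rw [MvPolynomial.coeff_monomial]
  split_ifs
  · exact hs p
  · rw [map_zero]; exact zero_mem V

/-- the residue of a polynomial of value at most one -/
lemma resid (hθ : Transcendental E θ) (hK : KP V θ ϕ β) (hD : DC V θ ϕ)
    (hL : Lft V θ ϕ W π t ee b ff tt bb zz) (htt : ∀ i, aeval θ (tt i) ≠ 0)
    (hz : ∀ p, V.valuation (zf θ tt zz p) = 1) (hb : ∀ j, V.valuation (aeval θ (bb j)) = 1)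
    {f : E[X]} (hf : f.degree < ϕ.degree) (hf1 : V.valuation (aeval θ f) ≤ 1) :
    ∃ p : MvPolynomial (Fin r) E, (∀ m, algebraMap E F (p.coeff m) ∈ V) ∧
      Rep E V (tf θ ϕ tt) (zf θ tt zz) (· < 1)
        (aeval θ f - MvPolynomial.aeval (fun i => aeval θ (bb i)) p) := by
  classical
  obtain ⟨c, hc, hv⟩ := digits hK hL hf
  have hterm : ∀ p, ∃ s : E, algebraMap E F s ∈ V ∧
      Rep E V (tf θ ϕ tt) (zf θ tt zz) (· < 1) (aeval θ (C (c p) * zz p) -
        algebraMap E F s * ∏ j, aeval θ (bb j) ^ (p.2 j : ℕ)) := by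
    intro p
    have hv1 := (hv p).trans hf1
    by_cases h0 : c p = 0
    · refine ⟨0, by rw [map_zero]; exact zero_mem V, ?_⟩
      rw [h0, C_0, zero_mul, map_zero, map_zero, zero_mul, sub_zero]
      exact rep_zero
    have e : aeval θ (C (c p) * zz p) = algebraMap E F (c p) * mo (tf θ ϕ tt)
        (Fin.snoc (α := fun _ => ℤ) (fun i => ((p.1 i : ℕ) : ℤ)) (0 : ℤ)) * zf θ tt zz p := by
      rw [map_mul, aeval_C, zz_eq htt, mo_tf, zpow_zero, mul_one, mul_assoc]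
    rcases hv1.lt_or_eq with h1 | h1
    · refine ⟨0, by rw [map_zero]; exact zero_mem V, ?_⟩
      rw [map_zero, zero_mul, sub_zero, e]
      refine rep_term _ _ h0 ?_
      rw [e, map_mul _ (_ * _), hz, mul_one] at h1
      exact h1
    · have hdeg : (C (c p) * zz p).degree < ϕ.degree := lt_of_le_of_lt (degC _ _) (hL.zd p)
      have h2 := (val_one hK hL.rsd hdeg).2 h1
      have hπ : π (C (c p) * zz p) = (algebraMap E M (c p) *
          (∏ i, t i ^ (p.1 i : ℕ))) * ∏ j, b j ^ (p.2 j : ℕ) := by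
        rw [map_mul, hL.zπ, ← mul_assoc]
        congr 2
        exact π.commutes (c p)
      have hbv : W.valuation (∏ j, b j ^ (p.2 j : ℕ)) = 1 := by
        rw [map_prod]
        exact Finset.prod_eq_one fun j _ => by rw [map_pow, hL.str.b1, one_pow]
      rw [hπ, map_mul _ (_ * _), hbv, mul_one] at h2
      have hμ := red hL.str h0 p.1 h2
      have hmo0 : (Fin.snoc (α := fun _ => ℤ) (fun i => ((p.1 i : ℕ) : ℤ)) (0 : ℤ) :
          Fin (q + 1) → ℤ) = 0 := by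
        funext i
        refine Fin.lastCases ?_ (fun j => ?_) i
        · rw [Fin.snoc_last]; rfl
        · rw [Fin.snoc_castSucc, hμ j]; rfl
      rw [hmo0, mo_zero, mul_one] at e
      have hcv : V.valuation (algebraMap E F (c p)) = 1 := by
        rw [e, map_mul, hz, mul_one] at h1
        exact h1
      refine ⟨c p, (V.valuation_le_one_iff _).1 hcv.le, ?_⟩
      have h3 := rep_mul (Q' := (· < 1)) (tf_ne hθ hK htt) h0 0 (fun x hx => by
        rw [mo_zero, mul_one, hcv, one_mul]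
        exact hx) (part_zw hθ hK hD hL htt hz hb p)
      rw [mo_zero, mul_one, mul_sub] at h3
      rw [e]
      exact h3
  choose s hs hrep using hterm
  refine ⟨∑ p, MvPolynomial.monomial (Finsupp.equivFunOnFinite.symm fun j => (p.2 j : ℕ)) (s p),
    pol_coeff s _ hs, ?_⟩
  rw [pol_eval]
  have e : aeval θ f = ∑ p, aeval θ (C (c p) * zz p) := by
    rw [← map_sum, ← hc]
  rw [e, ← Finset.sum_sub_distrib]
  exact rep_sum _ fun p _ => hrep p

/-- (2) -/
lemma part_tw (hθ : Transcendental E θ) (hK : KP V θ ϕ β) (hD : DC V θ ϕ)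
    (hL : Lft V θ ϕ W π t ee b ff tt bb zz) (htt : ∀ i, aeval θ (tt i) ≠ 0)
    (hz : ∀ p, V.valuation (zf θ tt zz p) = 1) (hb : ∀ j, V.valuation (aeval θ (bb j)) = 1)
    (i : Fin q) (g : E) (m : Fin q → ℤ) (hg : g ≠ 0)
    (hW : W.valuation (t i ^ ee i) = W.valuation (algebraMap E M g * mo t m))
    (hV : V.valuation (aeval θ (tt i) ^ ee i) =
      V.valuation (algebraMap E F g * mo (fun i => aeval θ (tt i)) m)) :
    ∃ p : MvPolynomial (Fin r) E, (∀ m, algebraMap E F (p.coeff m) ∈ V) ∧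
      Rep E V (tf θ ϕ tt) (zf θ tt zz) (· < 1) (aeval θ (tt i) ^ ee i *
        (algebraMap E F g * mo (fun i => aeval θ (tt i)) m)⁻¹ -
        MvPolynomial.aeval (fun i => aeval θ (bb i)) p) := by
  have hρ1 : ∀ i, V.valuation (aeval θ (tt i)) ≠ 0 := fun i => (Valuation.ne_zero_iff _).2 (htt i)
  have hgM : algebraMap E M g ≠ 0 := (_root_.map_ne_zero _).2 hg
  have hgF : algebraMap E F g ≠ 0 := (_root_.map_ne_zero _).2 hg
  have hmM : mo t m ≠ 0 := mo_ne_zero hL.str.t0 m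
  have hmF : mo (fun i => aeval θ (tt i)) m ≠ 0 := mo_ne_zero htt m
  obtain ⟨lw, hlw, hπw⟩ := hL.rsd.sur (t i ^ ee i * (algebraMap E M g * mo t m)⁻¹)
  have hlw1 : V.valuation (aeval θ lw) = 1 := by
    rw [← val_one hK hL.rsd hlw, hπw, map_mul, map_inv₀, hW]
    exact mul_inv_cancel₀ ((Valuation.ne_zero_iff _).2 (mul_ne_zero hgM hmM))
  set ρ : V.ValueGroup := V.valuation (algebraMap E F g) *
    ∏ j, V.valuation (aeval θ (tt j)) ^ (m j).toNat with hρ
  have hρg : V.valuation (algebraMap E F g) ≠ 0 := (Valuation.ne_zero_iff _).2 hgF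
  have hρm : ∏ j, V.valuation (aeval θ (tt j)) ^ (m j).toNat ≠ 0 :=
    Finset.prod_ne_zero_iff.2 fun i _ => pow_ne_zero _ (hρ1 i)
  have hρ0 : ρ ≠ 0 := mul_ne_zero hρg hρm
  have hsF := mo_split htt m
  have hsM := mo_split hL.str.t0 m
  -- the two polynomials
  have hdtt : ∀ j, Dig V θ ϕ (V.valuation (aeval θ (tt j))) (tt j) := fun j =>
    hD.small _ _ (hL.td j) le_rfl (hρ1 j)
  have hprod : ∀ k : Fin q → ℕ, Dig V θ ϕ (∏ j, V.valuation (aeval θ (tt j)) ^ k j)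
      (∏ j, tt j ^ k j) := fun k =>
    dig_prod hK hD _ _ _ (fun i => pow_ne_zero _ (hρ1 i)) fun i => dig_pow hK hD (hρ1 i) (hdtt i) _
  have hP1 : Dig V θ ϕ ρ (tt i ^ ee i * ∏ j, tt j ^ (-m j).toNat) := by
    have h1 := hD.mul _ _ _ _ (pow_ne_zero _ (hρ1 i))
      (Finset.prod_ne_zero_iff.2 fun i _ => pow_ne_zero _ (hρ1 i))
      (dig_pow hK hD (hρ1 i) (hdtt i) (ee i)) (hprod fun j => (-m j).toNat)
    convert h1 using 1
    have h2 := congrArg V.valuation hsF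
    rw [map_mul, map_prod, map_prod] at h2
    simp only [map_pow] at h2
    rw [hρ, ← h2, ← mul_assoc, ← map_mul, ← hV, map_pow]
  have hP2 : Dig V θ ϕ ρ (C g * (∏ j, tt j ^ (m j).toNat) * lw) := by
    have h0 : Dig V θ ϕ (V.valuation (algebraMap E F g)) (C g) := by
      refine hD.small _ _ ?_ ?_ hρg
      · exact lt_of_le_of_lt degree_C_le (natDegree_pos_iff_degree_pos.1 hK.deg)
      · rw [aeval_C]
    have h1 := hD.mul _ _ _ _ (mul_ne_zero hρg hρm) one_ne_zero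
      (hD.mul _ _ _ _ hρg hρm h0 (hprod fun j => (m j).toNat))
      (hD.small 1 lw hlw hlw1.le one_ne_zero)
    rw [mul_one] at h1
    exact h1
  have hdiff : Dig V θ ϕ ρ (tt i ^ ee i * ∏ j, tt j ^ (-m j).toNat +
      -(C g * (∏ j, tt j ^ (m j).toNat) * lw)) := hD.add _ _ _ hP1 (hD.neg _ _ hP2)
  have hdvd : ϕ ∣ (tt i ^ ee i * ∏ j, tt j ^ (-m j).toNat +
      -(C g * (∏ j, tt j ^ (m j).toNat) * lw)) := by
    rw [← hL.rsd.ker]
    have hCg : π (C g) = algebraMap E M g := π.commutes g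
    rw [map_add, map_neg, map_mul, map_mul, map_mul, map_pow, hL.tπ, map_prod, map_prod, hCg, hπw]
    simp only [map_pow, hL.tπ]
    rw [← hsM]
    field_simp
    ring
  obtain ⟨N, d, hE, h0, hk⟩ := hD.dvd ρ _ hdiff hdvd
  have hrep := exn_rep (Q := (· < ρ)) hθ hK hL htt hz hE fun k hk' x hx => by
    rcases Nat.eq_zero_or_pos k with rfl | hkpos
    · rw [h0, zero_mul, map_zero, map_zero] at hx
      exact lt_of_le_of_lt hx (zero_lt_iff.2 hρ0)
    · exact lt_of_le_of_lt hx (hk k hkpos (by omega))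
  have hm : mo (tf θ ϕ tt) (Fin.snoc (α := fun _ => ℤ) (fun i => (((m i).toNat : ℕ) : ℤ))
      (0 : ℤ)) = ∏ j, aeval θ (tt j) ^ (m j).toNat := by
    rw [mo_tf, zpow_zero, mul_one]
    unfold mo
    exact Finset.prod_congr rfl fun i _ => zpow_natCast _ _
  have hmv : V.valuation (algebraMap E F g * mo (tf θ ϕ tt)
      (Fin.snoc (α := fun _ => ℤ) (fun i => (((m i).toNat : ℕ) : ℤ)) (0 : ℤ))) = ρ := by
    rw [hm, map_mul, map_prod, hρ]
    simp only [map_pow]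
  have h1 := rep_div (tf_ne hθ hK htt) hg _ hmv hrep
  obtain ⟨p, hp, hprep⟩ := resid hθ hK hD hL htt hz hb hlw hlw1.le
  refine ⟨p, hp, ?_⟩
  have h2 := rep_add h1 hprep
  convert h2 using 1
  rw [hm, map_add, map_neg, map_mul, map_mul, map_mul, map_pow, map_prod, map_prod, aeval_C]
  simp only [map_pow]
  have hpne : ∏ j, aeval θ (tt j) ^ (m j).toNat ≠ 0 :=
    Finset.prod_ne_zero_iff.2 fun i _ => pow_ne_zero _ (htt i)
  have hnne : ∏ j, aeval θ (tt j) ^ (-m j).toNat ≠ 0 :=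
    Finset.prod_ne_zero_iff.2 fun i _ => pow_ne_zero _ (htt i)
  rw [← hsF]
  field_simp
  ring

end main

theorem liftB (h : S2_dig.{u}) (h' : S2_A.{u}) : S2_B.{u} := by
  intro E F _ _ _ V θ ϕ n β hθ hK M _ _ W π q r t ee b ff tt bb zz hL
  obtain ⟨d1, d2, d3, d4, d5⟩ := h V θ ϕ n β hθ hK
  have hD : DC V θ ϕ := ⟨d1, d2, d3, d4, d5⟩
  obtain ⟨htt, hb, hz, hmo, -⟩ := h' V θ ϕ n β hθ hK W π t ee b ff tt bb zz hL
  refine ⟨fun j h hc hv => part_res hθ hK hD hL htt hz hb j h hc hv, fun i g m hg hW => ?_,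
    fun k => ?_, fun f hf hd => part_mono hθ hK hL htt hz hf hd⟩
  · refine part_tw hθ hK hD hL htt hz hb i g m hg hW ?_
    have h1 := (hmo i (ee i : ℤ) g m hg).1 (by rw [zpow_natCast]; exact hW)
    rw [zpow_natCast] at h1
    exact h1
  · refine ⟨∑ p : Unit, MvPolynomial.monomial (Finsupp.equivFunOnFinite.symm
      fun j => (k.2 j : ℕ)) (1 : E), pol_coeff (fun _ => 1) _ (fun _ => by
        rw [map_one]; exact one_mem V), ?_⟩
    rw [pol_eval (fun i => aeval θ (bb i)) (fun _ : Unit => (1 : E))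
      (fun _ : Unit => fun j => (k.2 j : ℕ))]
    simp only [Finset.univ_unique, Finset.sum_singleton, map_one, one_mul]
    exact part_zw hθ hK hD hL htt hz hb k

end Pool.Agent.Y195.DT2
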